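import Pool.Agent.AT8.Stmts1
import Pool.Agent.Helper72_AT3.NIB
import Pool.Agent.Helper41_AT3.NIL

/-!
# Squad AT8, row RG1: the characters of a block of inertial index one agree at the regular
elements
-/

set_option autoImplicit false

open scoped BigOperators

noncomputable section

namespace Pool.Agent.PP.T8.H72

open Pool.Agent.Helper51_AWC Pool.Agent.Helper79_WRA Pool.Agent.PP Pool.Agent.PP.KF
open Pool.Agent.PP.K9 Pool.Agent.PP.K9.H97 Pool.Agent.PP.H75 Pool.Agent.PP.T3
open Pool.Agent.PP.T3.H72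

attribute [local instance] Ideal.Quotient.field

/-- A family of `|ι| = |κ|` orthogonal vectors without zero is complete. -/
theorem complete {ι κ : Type} [Fintype ι] [Fintype κ] [DecidableEq ι] [DecidableEq κ]
    (v : ι → κ → ℂ) (n : ι → ℂ) (hn : ∀ i, n i ≠ 0)
    (gram : ∀ i i', ∑ k, v i k * starRingEnd ℂ (v i' k) = if i = i' then n i else 0)
    (hc : Fintype.card ι = Fintype.card κ) (f : κ → ℂ) (i0 : ι)
    (hf : ∀ i, i ≠ i0 → ∑ k, f k * starRingEnd ℂ (v i k) = 0) :
    ∃ a : ℂ, ∀ k, f k = a * v i0 k := by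
  let A : Matrix ι κ ℂ := Matrix.of v
  let B : Matrix κ ι ℂ := Matrix.of fun k i => starRingEnd ℂ (v i k) * (n i)⁻¹
  have h1 : A * B = 1 := by
    ext i i'
    rw [Matrix.mul_apply, Matrix.one_apply]
    change ∑ k, v i k * (starRingEnd ℂ (v i' k) * (n i')⁻¹) = _
    have h2 : ∀ k, v i k * (starRingEnd ℂ (v i' k) * (n i')⁻¹) =
        (v i k * starRingEnd ℂ (v i' k)) * (n i')⁻¹ := fun k => (mul_assoc _ _ _).symm
    rw [Finset.sum_congr rfl fun k _ => h2 k, ← Finset.sum_mul, gram]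
    by_cases h : i = i'
    · subst h
      rw [if_pos rfl, if_pos rfl, mul_inv_cancel₀ (hn i)]
    · rw [if_neg h, if_neg h, zero_mul]
  have h2 : B * A = 1 := (Matrix.mul_eq_one_comm_of_card_eq _ _ _ hc).1 h1
  refine ⟨(∑ k, f k * starRingEnd ℂ (v i0 k)) * (n i0)⁻¹, fun k => ?_⟩
  have h3 : ∀ k', (if k' = k then (1 : ℂ) else 0) =
      ∑ i, starRingEnd ℂ (v i k') * (n i)⁻¹ * v i k := by
    intro k'
    have h4 := congrFun (congrFun h2 k') k
    rw [Matrix.mul_apply, Matrix.one_apply] at h4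
    exact h4.symm
  have h5 : f k = ∑ k', f k' * (if k' = k then (1 : ℂ) else 0) := by
    rw [Finset.sum_eq_single k]
    · rw [if_pos rfl, mul_one]
    · intro k' _ hk
      rw [if_neg hk, mul_zero]
    · intro h
      exact absurd (Finset.mem_univ _) h
  rw [h5]
  simp only [h3, Finset.mul_sum]
  rw [Finset.sum_comm, Finset.sum_eq_single i0]
  · rw [Finset.sum_mul, Finset.sum_mul]
    refine Finset.sum_congr rfl fun k' _ => ?_
    ring
  · intro i _ hi
    have h6 : ∑ k', f k' * (starRingEnd ℂ (v i k') * (n i)⁻¹ * v i k) =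
        (∑ k', f k' * starRingEnd ℂ (v i k')) * ((n i)⁻¹ * v i k) := by
      rw [Finset.sum_mul]
      refine Finset.sum_congr rfl fun k' _ => ?_
      ring
    rw [h6, hf i hi, zero_mul]
  · intro h
    exact absurd (Finset.mem_univ _) h

/-- RG1 -/
theorem rg1 (loc : T3.LocStmt) (lsb : T3.LsbStmt) (nil : T3.NilStmt) (smg : T3.SmgStmt)
    (co1 : T3.Co1Stmt) (co2 : T3.Co2Stmt) (fus : T3.FusStmt) : Rg1Stmt := by
  classical
  intro ℓ hℓ M _ hM H _ _ b V γ hL hix κ hκ κ' hκ' s hs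
  have hF : GoodF ℓ (FF M) := H50.fld ℓ Fact.out M hM
  have := Fintype.ofFinite H
  obtain ⟨⟨d0, hd0⟩, hcard, -⟩ := nil ℓ M hM H b V γ hL hix
  have hTC : Tg V γ ≤ Subgroup.centralizer (V : Set H) := Subgroup.relIndex_eq_one.1 hix
  have hEl : ∀ x ∈ V, El ℓ x := fun x hx => el_of_mem hL.tp.pg hx
  -- the local blocks
  have hloc : ∀ x : H, ∃ (c : H → FF M) (d : ℕ), x ∈ V → Lc b V γ x c ∧
      Dg M (fun t : Cu x => c t) d ∧ (IrrE M (fun t : Cu x => c t)).ncard = Nat.card V := by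
    intro x
    by_cases hxV : x ∈ V
    · obtain ⟨⟨c, hc⟩, -⟩ := loc ℓ (FF M) hF H b V γ hL x hxV
      obtain ⟨h1, h2, h3, h4, h5⟩ := lsb ℓ M hM H b V γ hL x hxV c hc
      have h6 : ix (V.subgroupOf (Cu x)) (fun t : Cu x => γ t) = 1 := by
        rw [h2]
        exact Subgroup.relIndex_eq_one.2 (inf_le_left.trans hTC)
      obtain ⟨⟨d, hd⟩, h7, -⟩ := nil ℓ M hM (Cu x) _ _ _ h1 h6
      exact ⟨c, d, fun _ => ⟨hc, hd, h7.trans h3⟩⟩
    · exact ⟨0, 0, fun h => absurd h hxV⟩
  choose c d hcd using hloc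
  -- the characters of the block
  have hfin : (IrrE M b).Finite := H25.irrE_finite M b
  have hfI : (Irr H).Finite := T3.H41.irrF H
  let K : Type := hfin.toFinset
  have hcK : Fintype.card V = Fintype.card K := by
    rw [Fintype.card_coe, ← Set.ncard_eq_toFinset_card _ hfin, hcard, Nat.card_eq_fintype_card]
  -- the vectors
  let v : V → K → ℂ := fun x χ =>
    if (x : H) ∈ Subgroup.center H then (χ : H → ℂ) x else gv M (Cu (x : H)) x (c x) χ
  have hout : ∀ x ∈ V, x ≠ 1 → ∀ χ ∈ Irr H, χ ∉ IrrE M b → gv M (Cu x) x (c x) χ = 0 := by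
    intro x hx hx1 χ hχ hχb
    obtain ⟨h1, h2, h3⟩ := hcd x hx
    have h4 := (smg ℓ M hM H x 1 hx1 (hEl x hx) (Cu x).one_mem H25.reg_one
      (fun t : Cu x => c x t) h1.blk.ix.idem b hL.blk.1).1 h1.und χ hχ hχb
    rw [mul_one] at h4
    exact h4
  -- sums over the block and over all the characters
  have hsub : hfin.toFinset ⊆ hfI.toFinset := by
    intro χ hχ
    rw [Set.Finite.mem_toFinset] at hχ ⊢
    exact hχ.1
  have hall : ∀ x ∈ V, x ≠ 1 → ∀ f : (H → ℂ) → ℂ,
      ∑ χ ∈ hfin.toFinset, gv M (Cu x) x (c x) χ * f χ =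
      ∑ᶠ χ ∈ Irr H, gv M (Cu x) x (c x) χ * f χ := by
    intro x hx hx1 f
    rw [finsum_mem_eq_finite_toFinset_sum _ hfI]
    refine Finset.sum_subset hsub fun χ h1 h2 => ?_
    rw [Set.Finite.mem_toFinset] at h1 h2
    rw [hout x hx hx1 χ h1 h2, zero_mul]
  have hn1 : ∀ x : H, x ∉ Subgroup.center H → x ≠ 1 := by
    intro x hx h
    exact hx (h ▸ (Subgroup.center H).one_mem)
  have helm : ∀ z ∈ V, ∀ x ∈ V, El ℓ (z * x⁻¹) := fun z hz x hx =>
    hEl _ (V.mul_mem hz (V.inv_mem hx))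
  have hmix : ∀ z ∈ V, z ∈ Subgroup.center H → ∀ x ∈ V, x ∉ Subgroup.center H →
      ∑ χ ∈ hfin.toFinset, χ z * starRingEnd ℂ (gv M (Cu x) x (c x) χ) = 0 := by
    intro z hz hzc x hx hxc
    refine sum_mixed hM hL.blk.1 hzc (helm z hz x hx) ?_ (hcd x hx).1.blk.ix
    intro h
    exact hxc (h ▸ hzc)
  -- the squared norms
  set σ : ℂ := pr M b 1 with hσ
  have hσ0 : σ ≠ 0 := by
    have e1 : ∀ χ ∈ (H25.irrE_finite M b).toFinset, χ 1 * χ 1 = ((d0 : ℂ)) * d0 := by
      intro χ hχ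
      rw [Set.Finite.mem_toFinset] at hχ
      rw [hd0.2 χ hχ]
    rw [hσ, H25.pr_eq, Finset.sum_congr rfl e1, Finset.sum_const, nsmul_eq_mul,
      ← Set.ncard_eq_toFinset_card _ _, hcard]
    have h1 : (Nat.card V : ℂ) ≠ 0 := by exact_mod_cast Nat.card_pos.ne'
    have h2 : (d0 : ℂ) ≠ 0 := by exact_mod_cast hd0.1.ne'
    exact mul_ne_zero h1 (mul_ne_zero h2 h2)
  let n : V → ℂ := fun x => if (x : H) ∈ Subgroup.center H then σ else
    (Nat.card V : ℂ) * (d x : ℂ) ^ 2
  have hn : ∀ x, n x ≠ 0 := by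
    intro x
    change (if (x : H) ∈ Subgroup.center H then σ else (Nat.card V : ℂ) * (d x : ℂ) ^ 2) ≠ 0
    split_ifs with h
    · exact hσ0
    · have h1 : (Nat.card V : ℂ) ≠ 0 := by exact_mod_cast Nat.card_pos.ne'
      have h2 : (d x : ℂ) ≠ 0 := by exact_mod_cast (hcd x x.2).2.1.1.ne'
      exact mul_ne_zero h1 (pow_ne_zero 2 h2)
  have hconv : ∀ f : (H → ℂ) → ℂ, ∑ k : K, f k = ∑ χ ∈ hfin.toFinset, f χ := fun f =>
    Finset.sum_coe_sort hfin.toFinset f
  have gram : ∀ i i', ∑ k, v i k * starRingEnd ℂ (v i' k) = if i = i' then n i else 0 := by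
    intro x x'
    by_cases hx : (x : H) ∈ Subgroup.center H <;> by_cases hx' : (x' : H) ∈ Subgroup.center H
    · have e1 : ∑ k, v x k * starRingEnd ℂ (v x' k) =
          ∑ k : K, (k : H → ℂ) x * starRingEnd ℂ ((k : H → ℂ) x') := by
        refine Finset.sum_congr rfl fun k _ => ?_
        change (if (x : H) ∈ Subgroup.center H then (k : H → ℂ) x else _) *
          starRingEnd ℂ (if (x' : H) ∈ Subgroup.center H then (k : H → ℂ) x' else _) = _
        rw [if_pos hx, if_pos hx']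
      rw [e1, hconv fun χ => χ x * starRingEnd ℂ (χ x'), sum_cent b hx]
      by_cases h : x = x'
      · subst h
        rw [if_pos rfl, mul_inv_cancel]
        change σ = if (x : H) ∈ Subgroup.center H then σ else _
        rw [if_pos hx]
      · rw [if_neg h]
        refine (H25.rc_pr wbo_ ℓ M hM H b hL.blk.1).sg _ fun h' => h ?_
        exact Subtype.ext (mul_inv_eq_one.1 (el_reg (helm x x.2 x' x'.2) h'))
    · have hne : x ≠ x' := fun h => hx' (h ▸ hx)
      have e1 : ∑ k, v x k * starRingEnd ℂ (v x' k) =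
          ∑ k : K, (k : H → ℂ) x * starRingEnd ℂ (gv M (Cu (x' : H)) x' (c x') k) := by
        refine Finset.sum_congr rfl fun k _ => ?_
        change (if (x : H) ∈ Subgroup.center H then (k : H → ℂ) x else _) *
          starRingEnd ℂ (if (x' : H) ∈ Subgroup.center H then (k : H → ℂ) x' else
            gv M (Cu (x' : H)) x' (c x') k) = _
        rw [if_pos hx, if_neg hx']
      rw [e1, hconv fun χ => χ x * starRingEnd ℂ (gv M (Cu (x' : H)) x' (c x') χ),
        hmix x x.2 hx x' x'.2 hx', if_neg hne]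
    · have hne : x ≠ x' := fun h => hx (h ▸ hx')
      have e1 : ∑ k, v x k * starRingEnd ℂ (v x' k) =
          ∑ k : K, starRingEnd ℂ ((k : H → ℂ) x' *
            starRingEnd ℂ (gv M (Cu (x : H)) x (c x) k)) := by
        refine Finset.sum_congr rfl fun k _ => ?_
        change (if (x : H) ∈ Subgroup.center H then (k : H → ℂ) x else
            gv M (Cu (x : H)) x (c x) k) *
          starRingEnd ℂ (if (x' : H) ∈ Subgroup.center H then (k : H → ℂ) x' else _) = _
        rw [if_neg hx, if_pos hx', map_mul, Complex.conj_conj, mul_comm]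
      rw [e1, ← map_sum, hconv fun χ => χ x' * starRingEnd ℂ (gv M (Cu (x : H)) x (c x) χ),
        hmix x' x'.2 hx' x x.2 hx, map_zero, if_neg hne]
    · have e1 : ∑ k, v x k * starRingEnd ℂ (v x' k) =
          ∑ k : K, gv M (Cu (x : H)) x (c x) k *
            starRingEnd ℂ (gv M (Cu (x' : H)) x' (c x') k) := by
        refine Finset.sum_congr rfl fun k _ => ?_
        change (if (x : H) ∈ Subgroup.center H then (k : H → ℂ) x else
            gv M (Cu (x : H)) x (c x) k) *
          starRingEnd ℂ (if (x' : H) ∈ Subgroup.center H then (k : H → ℂ) x' else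
            gv M (Cu (x' : H)) x' (c x') k) = _
        rw [if_neg hx, if_neg hx']
      rw [e1, hconv fun χ => gv M (Cu (x : H)) x (c x) χ *
            starRingEnd ℂ (gv M (Cu (x' : H)) x' (c x') χ),
        hall x x.2 (hn1 x hx) fun χ => starRingEnd ℂ (gv M (Cu (x' : H)) x' (c x') χ)]
      by_cases h : x = x'
      · subst h
        rw [if_pos rfl]
        change _ = if (x : H) ∈ Subgroup.center H then σ else (Nat.card V : ℂ) * (d x : ℂ) ^ 2
        rw [if_neg hx]
        obtain ⟨h1, h2, h3⟩ := hcd x x.2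
        rw [co1 ℓ M hM H x (hEl x x.2) (c x) h1.blk.ix,
          finsum_mem_eq_finite_toFinset_sum _ (H25.irrE_finite M _)]
        have h4 : ∀ θ ∈ (H25.irrE_finite M (fun t : Cu (x : H) => c x t)).toFinset,
            θ 1 ^ 2 = ((d x : ℂ)) ^ 2 := by
          intro θ hθ
          rw [Set.Finite.mem_toFinset] at hθ
          rw [h2.2 θ hθ]
        rw [Finset.sum_congr rfl h4, Finset.sum_const, ← Set.ncard_eq_toFinset_card _ _, h3,
          nsmul_eq_mul]
      · have h1 : (x : H) ≠ x' := fun h' => h (Subtype.ext h')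
        rw [orth_ss fus co2 hM hL hix x.2 x'.2 h1 (hcd x x.2).1 (hcd x' x'.2).1, if_neg h]
  -- the values at `s`
  have hf : ∀ i : V, i ≠ 1 → ∑ k : K, (k : H → ℂ) s * starRingEnd ℂ (v i k) = 0 := by
    intro x hx1
    have hx1' : (x : H) ≠ 1 := fun h => hx1 (Subtype.ext h)
    have hw : ∀ g : H, ¬ Reg ℓ g →
        ∑ χ ∈ hfin.toFinset, χ s * starRingEnd ℂ (χ g) = 0 := by
      intro g hg
      have h1 := wbo_ ℓ M hM H b hL.blk.1 s⁻¹ g⁻¹ (H25.reg_inv.2 hs)
        (fun h => hg (H25.reg_inv.1 h))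
      rw [finsum_mem_eq_finite_toFinset_sum _ hfin, inv_inv] at h1
      rw [← h1]
      refine Finset.sum_congr rfl fun χ hχ => ?_
      rw [Set.Finite.mem_toFinset] at hχ
      rw [H94.irr_star hχ.1]
    by_cases hx : (x : H) ∈ Subgroup.center H
    · have e1 : ∑ k : K, (k : H → ℂ) s * starRingEnd ℂ (v x k) =
          ∑ k : K, (k : H → ℂ) s * starRingEnd ℂ ((k : H → ℂ) x) := by
        refine Finset.sum_congr rfl fun k _ => ?_
        change _ * starRingEnd ℂ (if (x : H) ∈ Subgroup.center H then (k : H → ℂ) x else _) = _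
        rw [if_pos hx]
      rw [e1, hconv fun χ => χ s * starRingEnd ℂ (χ x)]
      exact hw x fun h => hx1' (el_reg (hEl x x.2) h)
    · have e1 : ∑ k : K, (k : H → ℂ) s * starRingEnd ℂ (v x k) =
          ∑ k : K, (k : H → ℂ) s * starRingEnd ℂ (gv M (Cu (x : H)) x (c x) k) := by
        refine Finset.sum_congr rfl fun k _ => ?_
        change _ * starRingEnd ℂ (if (x : H) ∈ Subgroup.center H then _ else
            gv M (Cu (x : H)) x (c x) k) = _
        rw [if_neg hx]
      rw [e1, hconv fun χ => χ s * starRingEnd ℂ (gv M (Cu (x : H)) x (c x) χ)]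
      have := Fintype.ofFinite (Cu (x : H))
      have e2 : ∀ χ ∈ hfin.toFinset,
          χ s * starRingEnd ℂ (gv M (Cu (x : H)) x (c x) χ) =
          ∑ t : Cu (x : H), starRingEnd ℂ (eh M (fun t : Cu (x : H) => c x t) t) *
            (χ s * starRingEnd ℂ (χ (x * t))) := by
        intro χ _
        rw [gv_star (x : H) (c x) χ, Finset.mul_sum]
        refine Finset.sum_congr rfl fun t _ => ?_
        ring
      rw [Finset.sum_congr rfl e2, Finset.sum_comm]
      refine Finset.sum_eq_zero fun t _ => ?_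
      rw [← Finset.mul_sum]
      by_cases ht : Reg ℓ t
      · have ht2 : Reg ℓ (t : H) := by
          unfold Reg at ht ⊢
          rwa [Subgroup.orderOf_coe]
        have hcom : Commute (x : H) (t : H) :=
          (Subgroup.mem_centralizer_singleton_iff.1 t.2).symm
        rw [hw _ (sing_mul (hEl x x.2) hx1' hcom ht2), mul_zero]
      · rw [H25.eh_sing wbo_ ℓ M hM _ (hcd x x.2).1.blk.ix.idem t ht, map_zero, zero_mul]
  obtain ⟨a, ha⟩ := complete v n hn gram hcK (fun k : K => (k : H → ℂ) s) 1 hf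
  have h1 : ∀ k : K, v 1 k = d0 := by
    intro k
    change (if ((1 : V) : H) ∈ Subgroup.center H then (k : H → ℂ) ((1 : V) : H) else _) = _
    rw [OneMemClass.coe_one, if_pos (Subgroup.center H).one_mem]
    exact hd0.2 k ((Set.Finite.mem_toFinset _).1 k.2)
  have h2 := ha ⟨κ, (Set.Finite.mem_toFinset _).2 hκ⟩
  have h3 := ha ⟨κ', (Set.Finite.mem_toFinset _).2 hκ'⟩
  rw [h1] at h2 h3
  exact h2.trans h3.symm

end Pool.Agent.PP.T8.H72
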