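import Pool.Agent.AT8.StmtsF
import Pool.Agent.Helper14_AT3.RIN

/-!
# Squad AT8, row FNI: integrality for a free inertial quotient
-/

set_option autoImplicit false

open scoped BigOperators

noncomputable section

namespace Pool.Agent.PP.T8.H72

open Pool.Agent.Helper51_AWC Pool.Agent.Helper79_WRA Pool.Agent.PP Pool.Agent.PP.KF
open Pool.Agent.PP.K9 Pool.Agent.PP.K9.H97 Pool.Agent.PP.H75 Pool.Agent.PP.T3 Pool.Agent.PP.T2

attribute [local instance] Ideal.Quotient.field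

section poly

open Polynomial

/-- the sum of the conjugates of the value of an integral polynomial is an integer -/
theorem sum_aeval_int (ℓ q : ℕ) (hl : 0 < ℓ) (ζ : ℂ) (hζ : ζ ^ (ℓ * q) = 1) (P : ℤ[X]) :
    ∃ z : ℤ, ∑ j ∈ (Finset.range (ℓ * q)).filter (fun j => ¬ ℓ ∣ j), aeval (ζ ^ j) P = z := by
  have h1 : ∀ i : ℕ, ∃ z : ℤ,
      ∑ j ∈ (Finset.range (ℓ * q)).filter (fun j => ¬ ℓ ∣ j), ζ ^ (i * j) = z := fun i =>
    T3.H14.ram_int ℓ q i hl ζ hζ
  choose z hz using h1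
  refine ⟨∑ i ∈ P.support, P.coeff i * z i, ?_⟩
  have h2 : ∀ j, aeval (ζ ^ j) P = ∑ i ∈ P.support, (P.coeff i : ℂ) * ζ ^ (i * j) := by
    intro j
    rw [aeval_eq_sum_range, ← P.sum_def (fun i a => (a : ℂ) * ζ ^ (i * j)),
      P.sum_over_range (fun n => by rw [Int.cast_zero, zero_mul])]
    refine Finset.sum_congr rfl fun i _ => ?_
    rw [zsmul_eq_mul, ← pow_mul, mul_comm i j]
  rw [Finset.sum_congr rfl fun j _ => h2 j, Finset.sum_comm]
  push_cast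
  refine Finset.sum_congr rfl fun i _ => ?_
  rw [← Finset.mul_sum, hz]

theorem isInt_aeval (P : ℤ[X]) {z : ℂ} (hz : IsIntegral ℤ z) : IsIntegral ℤ (aeval z P) := by
  have h1 : aeval z P ∈ integralClosure ℤ ℂ := by
    rw [aeval_eq_sum_range]
    refine Subalgebra.sum_mem _ fun i _ => ?_
    exact Subalgebra.smul_mem _ (Subalgebra.pow_mem _ hz i) _
  exact h1

end poly

/-- an element of the local ring whose product with a power of `ℓ` is an integer is an integer -/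
theorem int_of_RM {ℓ : ℕ} (hℓ : ℓ.Prime) {M : Ideal (integralClosure ℤ ℂ)} [M.IsMaximal]
    (hM : (ℓ : integralClosure ℤ ℂ) ∈ M) :
    ∀ (A : ℕ) (x : ℂ), x ∈ RM M → ∀ n : ℤ, (ℓ : ℂ) ^ A * x = n → ∃ z : ℤ, x = z := by
  intro A
  induction A with
  | zero =>
    intro x _ n h
    rw [pow_zero, one_mul] at h
    exact ⟨n, h⟩
  | succ A ih =>
    intro x hx n h
    have hpos : (ℓ : ℂ) ≠ 0 := by exact_mod_cast hℓ.pos.ne'
    have h0 : ∀ k : ℕ, (ℓ : ℂ) ^ k ∈ RM M := by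
      intro k
      have h1 := (rr_nat (M := M) (ℓ ^ k)).1
      push_cast at h1
      exact h1
    have h1 : rr M (n : ℂ) = 0 := by
      have h2 : (n : ℂ) = ((ℓ : ℕ) : ℂ) * ((ℓ : ℂ) ^ A * x) := by
        rw [← h, pow_succ]
        ring
      rw [h2, rr_mul (rr_nat ℓ).1 ((RM M).mul_mem (h0 A) hx), (rr_nat ℓ).2]
      have h3 : (ℓ : FF M) = 0 := by
        have := Ideal.Quotient.eq_zero_iff_mem.2 hM
        rwa [map_natCast] at this
      rw [h3, zero_mul]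
    obtain ⟨n', hn'⟩ := (dvd_of_rr hℓ hM).1 h1
    refine ih x hx n' ?_
    have h4 : (ℓ : ℂ) * ((ℓ : ℂ) ^ A * x) = ℓ * n' := by
      rw [← mul_assoc, ← pow_succ', h, hn']
      push_cast
      ring
    exact mul_left_cancel₀ hpos h4

/-- FNI -/
theorem fni (coh : CohStmt) (inr : T3.InrStmt) (dpw : DpwStmt) (lpw : T3.LpwStmt) :
    FniStmt := by
  classical
  intro ℓ hℓ M _ hM hl2 G _ _ N hN e V γ b d c ε hD hfr χ hχ lam
  have hp : ℓ.Prime := hℓ.out
  have hF : GoodF ℓ (FF M) := H50.fld ℓ Fact.out M hM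
  have := Fintype.ofFinite V
  have hrg : ∀ v ∈ V, v ≠ 1 → Rg V γ v := by
    intro v hv hv1
    refine ⟨hv, hv1, fun t ht => ?_⟩
    obtain ⟨ht1, ht2⟩ := Subgroup.mem_inf.1 ht
    exact hfr t ht1 v hv hv1 (Subgroup.mem_centralizer_singleton_iff.1 ht2)
  obtain ⟨A, hA⟩ := (IsPGroup.iff_card.1 hD.ld.tp.pg)
  obtain ⟨f, hf1, hf2, -⟩ := coh ℓ M hM hl2 G N hN e V γ b d c ε hD χ hχ
  obtain ⟨-, hpw, -⟩ := dpw ℓ M hM hl2 G e V γ b d c ε hD
  -- the value as a sum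
  set S : ℂ := ∑ v : V, (ε v : ℂ) * vv M b d v χ * (lam v⁻¹ - 1) with hS
  have hcl : cl M V b d ε lam χ = (Nat.card V : ℂ)⁻¹ * S := by
    unfold cl
    rw [finsum_eq_sum_of_fintype]
  -- it is in the local ring
  have hRM : cl M V b d ε lam χ ∈ RM M := by
    have h1 := hf1 lam
    have h2 := hf1 1
    rw [finsum_eq_sum_of_fintype] at h1 h2
    have h3 : cl M V b d ε lam χ = (Nat.card V : ℂ)⁻¹ * ∑ v : V, f v * lam v⁻¹ -
        (Nat.card V : ℂ)⁻¹ * ∑ v : V, f v * (1 : V →* ℂ) v⁻¹ := by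
      rw [hcl, ← mul_sub, ← Finset.sum_sub_distrib]
      congr 1
      refine Finset.sum_congr rfl fun v _ => ?_
      by_cases hv : v = 1
      · subst hv
        rw [inv_one, map_one, map_one]
        ring
      · have hv1 : (v : G) ≠ 1 := fun h => hv (Subtype.ext h)
        rw [hf2 v (hrg v v.2 hv1), MonoidHom.one_apply]
        ring
    rw [h3]
    exact (RM M).sub_mem h1 h2
  -- the roots of unity
  have hl : 0 < ℓ := hp.pos
  have hq : 0 < ℓ * ℓ ^ A := Nat.mul_pos hl (pow_pos hl _)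
  have hζ : IsPrimitiveRoot (Complex.exp (2 * Real.pi * Complex.I / (ℓ * ℓ ^ A : ℕ)))
      (ℓ * ℓ ^ A) := Complex.isPrimitiveRoot_exp _ hq.ne'
  set ζ : ℂ := Complex.exp (2 * Real.pi * Complex.I / (ℓ * ℓ ^ A : ℕ)) with hζdef
  have hζ1 : ζ ^ (ℓ * ℓ ^ A) = 1 := hζ.pow_eq_one
  have hvq : ∀ v : V, v ^ (ℓ * ℓ ^ A) = 1 := by
    intro v
    rw [mul_comm, pow_mul, ← hA, pow_card_eq_one', one_pow]
  have hpoly : ∀ v : V, ∃ P : Polynomial ℤ, ∀ j : ℕ, ¬ ℓ ∣ j →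
      (ε ((v ^ j : V) : G) : ℂ) * vv M b d ((v ^ j : V) : G) χ * (lam (v ^ j)⁻¹ - 1) =
        Polynomial.aeval (ζ ^ j) P := by
    intro v
    by_cases hv : v = 1
    · refine ⟨0, fun j _ => ?_⟩
      subst hv
      rw [one_pow, inv_one, map_one, sub_self, mul_zero, map_zero]
    · have hv1 : (v : G) ≠ 1 := fun h => hv (Subtype.ext h)
      have hr := hrg v v.2 hv1
      have hvq' : (v : G) ^ (ℓ * ℓ ^ A) = 1 := by
        have h1 := congrArg (fun t : V => (t : G)) (hvq v)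
        simpa using h1
      obtain ⟨m, hm⟩ := inr M G v (ℓ * ℓ ^ A) hq hvq' (b v) (hD.lc v hr).blk.ix (d v)
        (hD.dg v hr) ζ hζ χ hχ
      have hd0 : (d v : ℂ) ≠ 0 := by exact_mod_cast (hD.dg v hr).1.ne'
      have h2 : (lam v⁻¹) ^ (ℓ * ℓ ^ A) = 1 := by
        rw [← map_pow, inv_pow, hvq, inv_one, map_one]
      obtain ⟨k, -, hk⟩ := hζ.eq_pow_of_pow_eq_one h2
      refine ⟨Polynomial.C (ε v) * (∑ i ∈ Finset.range (ℓ * ℓ ^ A),
        Polynomial.C (m i) * Polynomial.X ^ i) * (Polynomial.X ^ k - 1), fun j hj => ?_⟩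
      obtain ⟨-, hb, hd, he⟩ := hpw v hr j hj
      have hcu : Cu ((v : G) ^ j) = Cu (v : G) :=
        (lpw ℓ (FF M) hF G e V γ hD.ld v v.2 (b v) (hD.lc v hr) j hj).1
      have e1 : ((v ^ j : V) : G) = (v : G) ^ j := rfl
      have e2 : vv M b d ((v ^ j : V) : G) χ =
          ∑ i ∈ Finset.range (ℓ * ℓ ^ A), (m i : ℂ) * ζ ^ (i * j) := by
        rw [e1]
        unfold vv
        rw [hb, hd, hcu, hm j]
        field_simp
      have e3 : lam (v ^ j)⁻¹ = ζ ^ (k * j) := by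
        rw [← inv_pow, map_pow, ← hk, ← pow_mul]
      rw [e2, e3, e1, he, map_mul, map_mul, map_sub, map_pow, map_one, Polynomial.aeval_X,
        map_sum, Polynomial.aeval_C]
      have e4 : ∑ i ∈ Finset.range (ℓ * ℓ ^ A), (m i : ℂ) * ζ ^ (i * j) =
          ∑ i ∈ Finset.range (ℓ * ℓ ^ A),
            Polynomial.aeval (ζ ^ j) (Polynomial.C (m i) * Polynomial.X ^ i) := by
        refine Finset.sum_congr rfl fun i _ => ?_
        rw [map_mul, map_pow, Polynomial.aeval_C, Polynomial.aeval_X, ← pow_mul, mul_comm i j]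
        rfl
      rw [e4, ← pow_mul, mul_comm k j]
      rfl
  choose P hP using hpoly
  have hconj : ∀ j : ℕ, ¬ ℓ ∣ j → S = Polynomial.aeval (ζ ^ j) (∑ v : V, P v) := by
    intro j hj
    have hcop : (Nat.card V).Coprime j := by
      rw [hA]
      exact Nat.Coprime.pow_left _ ((Nat.Prime.coprime_iff_not_dvd hp).2 hj)
    rw [map_sum, hS, ← Equiv.sum_comp (powCoprime hcop)]
    refine Finset.sum_congr rfl fun v _ => ?_
    rw [← hP v j hj]
    rfl
  obtain ⟨Z, hZ⟩ := sum_aeval_int ℓ (ℓ ^ A) hl ζ hζ1 (∑ v : V, P v)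
  have hsum : (((Finset.range (ℓ * ℓ ^ A)).filter (fun j => ¬ ℓ ∣ j)).card : ℂ) * S = Z := by
    rw [← hZ, ← nsmul_eq_mul, ← Finset.sum_const]
    refine Finset.sum_congr rfl fun j hj => ?_
    exact hconj j (Finset.mem_filter.1 hj).2
  have hne : ((Finset.range (ℓ * ℓ ^ A)).filter (fun j => ¬ ℓ ∣ j)).card ≠ 0 := by
    rw [Finset.card_ne_zero]
    refine ⟨1, Finset.mem_filter.2 ⟨Finset.mem_range.2 ?_, fun h => hp.one_lt.ne'
      (Nat.dvd_one.1 h)⟩⟩
    calc 1 < ℓ := hp.one_lt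
      _ = ℓ * 1 := (mul_one _).symm
      _ ≤ ℓ * ℓ ^ A := Nat.mul_le_mul_left _ (Nat.one_le_pow _ _ hl)
  have hint : IsIntegral ℤ S := by
    rw [hconj 1 (fun h => hp.one_lt.ne' (Nat.dvd_one.1 h)), pow_one]
    exact isInt_aeval _ (hζ.isIntegral hq)
  obtain ⟨z, hz⟩ := T3.H14.int_of S hint Z _ hne hsum
  refine int_of_RM hp hM A _ hRM z ?_
  have h1 : (Nat.card V : ℂ) = (ℓ : ℂ) ^ A := by
    rw [hA]
    push_cast
    rfl
  have h2 : (ℓ : ℂ) ^ A ≠ 0 := pow_ne_zero _ (by exact_mod_cast hl.ne')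
  rw [hcl, h1, ← mul_assoc, mul_inv_cancel₀ h2, one_mul, hz]

end Pool.Agent.PP.T8.H72
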